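import Mathlib
import Pool.Agent.Lib.MP_be4961_gt.Sections

open MeasureTheory Set Module Metric
open scoped InnerProductSpace

namespace Pool.Agent.Results.MP_be4961_gt.OneCentroidalPlane

/-- Euclidean three-space. -/
abbrev E3 := EuclideanSpace ℝ (Fin 3)

/-- Centroid of `K`: the mean of `x` over `K` with respect to three-dimensional Lebesgue measure. -/
noncomputable def centroid (K : Set E3) : E3 := ⨍ x in K, x ∂(volume : Measure E3)

/-- Centroid of the section `K ∩ H`: the mean of `x` over `K ∩ H` with respect to area, that is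
to the two-dimensional Hausdorff measure. -/
noncomputable def sectionCentroid (K : Set E3) (H : AffineSubspace ℝ E3) : E3 :=
  ⨍ x in K ∩ (H : Set E3), x ∂(Measure.hausdorffMeasure 2 : Measure E3)

/-- `H` is a plane through the centroid of `K` and the centroid of `K ∩ H` is the centroid
of `K`. -/
def IsCentroidalPlane (K : Set E3) (H : AffineSubspace ℝ E3) : Prop :=
  finrank ℝ H.direction = 2 ∧ centroid K ∈ H ∧ sectionCentroid K H = centroid K

open Pool.Agent.Lib.MP_be4961_gt

theorem int_eq_zero_iff {n : ℕ} {μ : Measure (EuclideanSpace ℝ (Fin n))}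
    {s : Set (EuclideanSpace ℝ (Fin n))} (h : IntegrableOn (fun x => x) s μ) :
    ∫ x in s, x ∂μ = 0 ↔ ∀ i, ∫ x in s, x i ∂μ = 0 := by
  have hcomm : ∀ i, (∫ x in s, x ∂μ) i = ∫ x in s, x i ∂μ := fun i =>
    ((EuclideanSpace.proj (𝕜 := ℝ) i).integral_comp_comm h).symm
  constructor
  · intro h0 i
    rw [← hcomm i, h0]; rfl
  · intro h0
    ext i
    rw [hcomm i, h0 i]; rfl

theorem haus_haar : ∃ c : ENNReal, c ≠ 0 ∧ c ≠ ⊤ ∧
    (Measure.hausdorffMeasure 2 : Measure V2) = c • (volume : Measure V2) := by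
  have h : (Measure.hausdorffMeasure (finrank ℝ V2) : Measure V2).IsAddHaarMeasure :=
    isAddHaarMeasure_hausdorffMeasure
  have e : ((finrank ℝ V2 : ℕ) : ℝ) = 2 := by simp
  rw [e] at h
  refine ⟨(Measure.addHaarScalarFactor (Measure.hausdorffMeasure 2 : Measure V2) volume : NNReal),
    ?_, ENNReal.coe_ne_top, ?_⟩
  · exact_mod_cast (Measure.addHaarScalarFactor_pos_of_isAddHaarMeasure _ _).ne'
  · exact Measure.isAddLeftInvariant_eq_smul _ _

theorem section_iff {K : Set E3} (hK : IsCompact K) (hball : ball (0 : E3) (1 / 2) ⊆ K)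
    (H : AffineSubspace ℝ E3) (L : V2 →ₗᵢ[ℝ] V3) (hH : (H : Set E3) = range L) :
    sectionCentroid K H = 0 ↔ ∀ j : Fin 2, ∫ y in L ⁻¹' K, y j = 0 := by
  obtain ⟨c, hc0, hct, hc⟩ := haus_haar
  have hKm : MeasurableSet K := hK.isClosed.measurableSet
  have hpre : IsCompact (L ⁻¹' K) := L.isometry.isClosedEmbedding.isCompact_preimage hK
  have hmap : (Measure.hausdorffMeasure 2 : Measure E3).restrict (K ∩ range L) =
      (Measure.map L (Measure.hausdorffMeasure 2 : Measure V2)).restrict K := by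
    rw [L.isometry.map_hausdorffMeasure (Or.inl (by norm_num)), Measure.restrict_restrict hKm]
  have hint : IntegrableOn (fun y : V2 => y) (L ⁻¹' K) volume :=
    continuous_id.continuousOn.integrableOn_compact hpre
  have h1 : ∫ x in K ∩ range L, x ∂(Measure.hausdorffMeasure 2 : Measure E3) =
      c.toReal • L (∫ y in L ⁻¹' K, y) := by
    rw [hmap, setIntegral_map hKm (f := fun x : E3 => x) aestronglyMeasurable_id
      L.continuous.aemeasurable, hc, Measure.restrict_smul, integral_smul_measure]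
    congr 1
    exact L.toContinuousLinearMap.integral_comp_comm hint
  have h2 : (Measure.hausdorffMeasure 2 : Measure E3) (K ∩ range L) = c * volume (L ⁻¹' K) := by
    have := congrArg (fun μ : Measure E3 => μ univ) hmap
    simp only [Measure.restrict_apply_univ] at this
    rw [this, Measure.map_apply L.continuous.measurable hKm, hc]
    rfl
  have hpos : volume (L ⁻¹' K) ≠ 0 := by
    have hsub : ball (0 : V2) (1 / 2) ⊆ L ⁻¹' K := by
      intro y hy
      apply hball
      rw [mem_ball_zero_iff] at hy ⊢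
      rwa [L.norm_map]
    have : 0 < volume (ball (0 : V2) (1 / 2)) := measure_ball_pos _ _ (by norm_num)
    exact (this.trans_le (measure_mono hsub)).ne'
  have hfin : volume (L ⁻¹' K) ≠ ⊤ := hpre.measure_lt_top.ne
  have h3 : (Measure.hausdorffMeasure 2 : Measure E3).real (K ∩ range L) ≠ 0 := by
    rw [Measure.real, h2, ENNReal.toReal_mul]
    exact mul_ne_zero (ENNReal.toReal_ne_zero.2 ⟨hc0, hct⟩) (ENNReal.toReal_ne_zero.2 ⟨hpos, hfin⟩)
  rw [sectionCentroid, hH, setAverage_eq, h1, ← int_eq_zero_iff hint, smul_eq_zero, smul_eq_zero]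
  have h4 : c.toReal ≠ 0 := ENNReal.toReal_ne_zero.2 ⟨hc0, hct⟩
  constructor
  · rintro (h | h | h)
    · exact absurd (inv_eq_zero.1 h) h3
    · exact absurd h h4
    · exact (map_eq_zero_iff L L.injective).1 h
  · intro h
    right; right
    rw [h, map_zero]

theorem mem_range_frame (n0 n1 ξ r : ℝ) (hn : n0 ^ 2 + n1 ^ 2 = 1) (hξ : ξ ^ 2 + r ^ 2 = 1)
    (p : V3) : p ∈ range (frame n0 n1 ξ r hn hξ) ↔ r * (n0 * p 0 + n1 * p 1) = ξ * p 2 := by
  constructor
  · rintro ⟨y, rfl⟩
    rw [frame_0, frame_1, frame_2]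
    linear_combination (r * ξ * y 1) * hn
  · intro h
    refine ⟨!₂[-n1 * p 0 + n0 * p 1, ξ * (n0 * p 0 + n1 * p 1) + r * p 2], ?_⟩
    ext i
    fin_cases i
    · change frame n0 n1 ξ r hn hξ _ 0 = p 0
      rw [frame_0]
      simp
      linear_combination (p 0) * hn + n0 * (n0 * p 0 + n1 * p 1) * hξ - n0 * r * h
    · change frame n0 n1 ξ r hn hξ _ 1 = p 1
      rw [frame_1]
      simp
      linear_combination (p 1) * hn + n1 * (n0 * p 0 + n1 * p 1) * hξ - n1 * r * h
    · change frame n0 n1 ξ r hn hξ _ 2 = p 2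
      rw [frame_2]
      simp
      linear_combination (p 2) * hξ + ξ * h

theorem exists_normal (W : Submodule ℝ V3) (hW : finrank ℝ W = 2) :
    ∃ θ : V3, θ ≠ 0 ∧ ∀ p, p ∈ W ↔ ⟪θ, p⟫_ℝ = 0 := by
  have h1 := Submodule.finrank_add_finrank_orthogonal W
  rw [hW, finrank_euclideanSpace, Fintype.card_fin] at h1
  have h2 : finrank ℝ Wᗮ = 1 := by omega
  obtain ⟨⟨θ, hθW⟩, hθ0, hθ⟩ := finrank_eq_one_iff'.1 h2
  refine ⟨θ, fun h => hθ0 (by ext1; exact h), fun p => ⟨fun hp => ?_, fun hp => ?_⟩⟩
  · exact (Submodule.mem_orthogonal' W θ).1 hθW p hp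
  · rw [← Submodule.orthogonal_orthogonal W]
    rw [Submodule.mem_orthogonal]
    intro u hu
    obtain ⟨c, hc⟩ := hθ ⟨u, hu⟩
    have : u = c • θ := by
      have := congrArg Subtype.val hc
      simpa using this.symm
    rw [this, inner_smul_left, hp, mul_zero]

theorem exists_frame (W : Submodule ℝ V3) (hW : finrank ℝ W = 2) :
    ∃ (n0 n1 ξ r : ℝ) (hn : n0 ^ 2 + n1 ^ 2 = 1) (hξ : ξ ^ 2 + r ^ 2 = 1),
      (W : Set V3) = range (frame n0 n1 ξ r hn hξ) := by
  obtain ⟨θ, hθ0, hθ⟩ := exists_normal W hW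
  have hinner : ∀ p : V3, ⟪θ, p⟫_ℝ = θ 0 * p 0 + θ 1 * p 1 + θ 2 * p 2 := by
    intro p
    simp [PiLp.inner_apply, Fin.sum_univ_three]
    ring
  have hN : 0 < ‖θ‖ := norm_pos_iff.2 hθ0
  have hN2 : θ 0 ^ 2 + θ 1 ^ 2 + θ 2 ^ 2 = ‖θ‖ ^ 2 := by
    rw [EuclideanSpace.real_norm_sq_eq, Fin.sum_univ_three]
  set N := ‖θ‖ with hNdef
  set R := Real.sqrt (θ 0 ^ 2 + θ 1 ^ 2) with hR
  have hR2 : R ^ 2 = θ 0 ^ 2 + θ 1 ^ 2 := Real.sq_sqrt (by positivity)
  have hR0 : 0 ≤ R := Real.sqrt_nonneg _
  by_cases hRz : R = 0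
  · have h5 : θ 0 ^ 2 + θ 1 ^ 2 = 0 := by rw [← hR2, hRz]; norm_num
    have h6 : θ 0 = 0 := by nlinarith [sq_nonneg (θ 0), sq_nonneg (θ 1)]
    have h7 : θ 1 = 0 := by nlinarith [sq_nonneg (θ 0), sq_nonneg (θ 1)]
    have h8 : θ 2 ≠ 0 := by
      intro h
      rw [h6, h7, h] at hN2
      have : 0 < N ^ 2 := by positivity
      linarith
    refine ⟨1, 0, 1, 0, by norm_num, by norm_num, ?_⟩
    ext p
    rw [mem_range_frame, SetLike.mem_coe, hθ, hinner, h6, h7]
    constructor
    · intro h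
      have : θ 2 * p 2 = 0 := by linarith
      have := (mul_eq_zero.1 this).resolve_left h8
      rw [this]; ring
    · intro h
      have : p 2 = 0 := by linarith
      rw [this]; ring
  · have hRpos : 0 < R := lt_of_le_of_ne hR0 (Ne.symm hRz)
    refine ⟨θ 0 / R, θ 1 / R, -θ 2 / N, R / N, ?_, ?_, ?_⟩
    · field_simp
      rw [hR2]
    · field_simp
      rw [hR2]; linarith
    · ext p
      rw [mem_range_frame, SetLike.mem_coe, hθ, hinner]
      have e : R / N * (θ 0 / R * p 0 + θ 1 / R * p 1) - -θ 2 / N * p 2 =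
        (θ 0 * p 0 + θ 1 * p 1 + θ 2 * p 2) / N := by
        field_simp
        ring
      constructor
      · intro h
        rw [h, zero_div] at e
        linarith
      · intro h
        rw [h, sub_self] at e
        have := (div_eq_zero_iff.1 e.symm).resolve_right hN.ne'
        exact this

/-- There is a convex body in three-space with exactly one centroidal plane. -/
theorem result : ∃ K : Set E3, IsCompact K ∧ Convex ℝ K ∧ (interior K).Nonempty ∧
    {H : AffineSubspace ℝ E3 | IsCentroidalPlane K H}.encard = 1 := by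
  obtain ⟨ε0, hε0, hA⟩ := main_analysis
  obtain ⟨ε1, hε1, hB⟩ := KK_props beta_contDiff
  set ε := min ε0 ε1 with hε
  have hεpos : 0 < ε := lt_min hε0 hε1
  obtain ⟨hA1, hA2, n0, n1, hn, hE, hT⟩ := hA ε hεpos (min_le_left _ _)
  obtain ⟨hconv, hcomp, hball, h4, h0, h2⟩ := hB ε hεpos (min_le_right _ _)
  set K := KK beta ε with hKdef
  have hcent : centroid K = 0 := by
    have hint : IntegrableOn (fun y : E3 => y) K volume :=
      continuous_id.continuousOn.integrableOn_compact hcomp
    rw [centroid, setAverage_eq, (int_eq_zero_iff hint).2 (body_int hcomp h4 h0 h2), smul_zero]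
  refine ⟨K, hcomp, hconv, ⟨0, interior_maximal hball isOpen_ball (by simp)⟩, ?_⟩
  -- the special plane
  have hξ0 : (0 : ℝ) ^ 2 + 1 ^ 2 = 1 := by norm_num
  set L0 := frame n0 n1 0 1 hn hξ0 with hL0
  set H0 : AffineSubspace ℝ E3 := (LinearMap.range L0.toLinearMap).toAffineSubspace with hH0
  have hH0s : (H0 : Set E3) = range L0 := by
    ext p; simp [hH0]
  have hEE : ∀ (m0 m1 ξ r : ℝ) (hm : m0 ^ 2 + m1 ^ 2 = 1) (hξ : ξ ^ 2 + r ^ 2 = 1)
      (H : AffineSubspace ℝ E3), (H : Set E3) = range (frame m0 m1 ξ r hm hξ) →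
      (sectionCentroid K H = 0 ↔ EE ε m0 m1 ξ (r ^ 2) = 0 ∧ TT ε m0 m1 ξ (r ^ 2) = 0) := by
    intro m0 m1 ξ r hm hξ H hH
    rw [section_iff hcomp hball H _ hH]
    have e0 := section_int hcomp h4 h0 h2 m0 m1 ξ r hm hξ 0
    have e1 := section_int hcomp h4 h0 h2 m0 m1 ξ r hm hξ 1
    change _ = 1 / 3 * EE ε m0 m1 ξ (r ^ 2) at e0
    change _ = 1 / 3 * TT ε m0 m1 ξ (r ^ 2) at e1
    rw [Fin.forall_fin_two, e0, e1]
    constructor
    · rintro ⟨a, b⟩; constructor <;> linarith
    · rintro ⟨a, b⟩; rw [a, b]; simp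
  have hset : {H : AffineSubspace ℝ E3 | IsCentroidalPlane K H} = {H0} := by
    ext H
    simp only [mem_ofPred_eq, mem_singleton_iff]
    constructor
    · rintro ⟨hdim, hmem, hsec⟩
      rw [hcent] at hmem hsec
      have hHW : (H : Set E3) = (H.direction : Set E3) := by
        ext p
        have := H.vadd_mem_iff_mem_direction p hmem
        simpa using this
      obtain ⟨m0, m1, ξ, r, hm, hξ, hW⟩ := exists_frame H.direction hdim
      rw [← hHW] at hW
      obtain ⟨he, ht⟩ := (hEE m0 m1 ξ r hm hξ H hW).1 hsec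
      have hξz := hA1 m0 m1 ξ (r ^ 2) hm hξ (sq_nonneg r) he ht
      have hr : r ^ 2 = 1 := by rw [hξz] at hξ; linarith
      rw [hξz, hr] at he
      have hcase := hA2 m0 m1 n0 n1 hm hn he hE
      apply SetLike.coe_injective
      rw [hH0s, hW]
      ext p
      rw [hL0, mem_range_frame, mem_range_frame, hξz]
      have hr0 : r ≠ 0 := by
        intro h; rw [h] at hr; norm_num at hr
      rcases hcase with ⟨c1, c2⟩ | ⟨c1, c2⟩
      · rw [c1, c2]
        constructor
        · intro h
          have : r * (m0 * p 0 + m1 * p 1) = 0 := by linarith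
          have := (mul_eq_zero.1 this).resolve_left hr0
          rw [this]; ring
        · intro h
          have : m0 * p 0 + m1 * p 1 = 0 := by linarith
          rw [this]; ring
      · rw [c1, c2]
        constructor
        · intro h
          have : r * (m0 * p 0 + m1 * p 1) = 0 := by linarith
          have := (mul_eq_zero.1 this).resolve_left hr0
          linear_combination (-1 : ℝ) * this
        · intro h
          have : m0 * p 0 + m1 * p 1 = 0 := by linarith
          rw [this]; ring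
    · rintro rfl
      refine ⟨?_, ?_, ?_⟩
      · rw [hH0, Submodule.toAffineSubspace_direction,
          LinearMap.finrank_range_of_inj L0.injective]
        simp
      · rw [hcent, ← SetLike.mem_coe, hH0s]
        exact ⟨0, map_zero _⟩
      · rw [hcent, hEE n0 n1 0 1 hn hξ0 H0 hH0s]
        norm_num
        exact ⟨hE, hT⟩
  rw [hset, encard_singleton]

end Pool.Agent.Results.MP_be4961_gt.OneCentroidalPlane
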